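import Pool.Agent.helper56.P2B.SpecD

/-!
# p2b:NM2 (MP_70a088_an, P2, block B): normalisation at the later place (helper99)
-/

set_option autoImplicit false

open Complex Metric Set Filter Topology MeasureTheory
open Pool.Agent.helper98.ILF
open WP (it)
open HY (UD T S hd UN RM)
open PM
open PL (TP LO PZ GJ INR PG DK ht tr DI CY SUBH hG hq BJ)
open P2 (SS FLS FL CLS FR TL)

noncomputable section

namespace P2B

theorem NM2 (hEXT : PL.EXT_stmt) (hTDF : TDF_stmt) : NM2_stmt := by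
  intro Ω Ω' G G' κ a b hP hP' hL θ' hθ' σ hσ z hz hz'
  obtain ⟨⟨a₁, b₁, ha₁, h1⟩, h2, h3⟩ := hσ
  have hκ0 : (κ : ℂ) ≠ 0 := by exact_mod_cast hL.k0.ne'
  have ha0 : (a : ℂ) ≠ 0 := by exact_mod_cast hL.a0
  obtain ⟨M, hM, hMeq⟩ := hL.eq
  -- the conjugate, explicitly
  have hinv : ∀ w : ℂ, w = (a : ℂ) * (θ'⁻¹ w) + b / (κ : ℂ) := by
    intro w
    have h := hθ' (θ'⁻¹ w)
    rw [show θ' (θ'⁻¹ w) = w from Equiv.apply_symm_apply θ' w] at h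
    exact h
  have hτ : ∀ w : ℂ, (θ' * σ * θ'⁻¹) w = (a₁ : ℂ) * w + ((a : ℂ) * b₁ + b / κ - (a₁ : ℂ) * (b / κ)) := by
    intro w
    rw [Equiv.Perm.mul_apply, Equiv.Perm.mul_apply, hθ', h1]
    have h := hinv w
    have h' : (θ'⁻¹ w) = (w - b / κ) / a := by
      field_simp
      rw [eq_comm]
      field_simp at h
      linear_combination h
    rw [h']
    field_simp
    ring
  have hτ' : ∀ w : ℂ, (θ' * σ * θ'⁻¹) w = θ' (σ (θ'⁻¹ w)) := fun w => rfl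
  -- the key
  have key : ∀ w ∈ Ω', (θ' * σ * θ'⁻¹) w ∈ Ω' → G' ((θ' * σ * θ'⁻¹) w) = G' w := by
    intro w hw hτw
    set ζ := θ'⁻¹ w with hζ
    have hw1 : (κ : ℂ) * w = (a : ℂ) * ((κ : ℂ) * ζ) + b := by
      have h := hinv w
      rw [← hζ] at h
      calc (κ : ℂ) * w = κ * ((a : ℂ) * ζ + b / (κ : ℂ)) := by rw [← h]
        _ = _ := by field_simp
    have hw2 : (κ : ℂ) * ((θ' * σ * θ'⁻¹) w) = (a : ℂ) * ((κ : ℂ) * (σ ζ)) + b := by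
      rw [hτ' w, hθ', ← hζ]
      field_simp
    have hκw : (κ : ℂ) * w ∈ Ω := hL.sub w hw
    have hζΩ : ζ ∈ Ω' := (hL.iff ζ).1 (by rw [← hw1]; exact hκw)
    have hσζ : σ ζ ∈ Ω' := (h2 ζ).2 hζΩ
    have hκτ : (κ : ℂ) * ((θ' * σ * θ'⁻¹) w) ∈ Ω := by
      rw [hw2]
      exact (hL.iff (σ ζ)).2 hσζ
    have e1 := hMeq ζ hζΩ
    have e2 := hMeq (σ ζ) hσζ
    rw [← hw1] at e1
    rw [← hw2] at e2
    have e3 : M (G ((κ : ℂ) * w)) = M (G ((κ : ℂ) * ((θ' * σ * θ'⁻¹) w))) := by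
      rw [← e1, ← e2, h3 ζ hζΩ]
    have e4 : G ((κ : ℂ) * w) = G ((κ : ℂ) * ((θ' * σ * θ'⁻¹) w)) := hM (hP.map hκw) (hP.map hκτ) e3
    exact (hL.jn w hw _ hτw e4).symm
  refine hEXT Ω' G' hP' a₁ ((a : ℂ) * b₁ + b / κ - (a₁ : ℂ) * (b / κ)) z ha₁ hz ?_ ?_ (θ' * σ * θ'⁻¹) hτ
  · rw [← hτ z]
    exact hz'
  · have hopen : IsOpen Ω' := (hTDF Ω' hP'.dd).1
    have hc : Continuous (fun ζ : ℂ => (a₁ : ℂ) * ζ + ((a : ℂ) * b₁ + b / κ - (a₁ : ℂ) * (b / κ))) := by fun_prop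
    have hz'' : (a₁ : ℂ) * z + ((a : ℂ) * b₁ + b / κ - (a₁ : ℂ) * (b / κ)) ∈ Ω' := by
      rw [← hτ z]
      exact hz'
    have hn1 : ∀ᶠ ζ in 𝓝 z, (a₁ : ℂ) * ζ + ((a : ℂ) * b₁ + b / κ - (a₁ : ℂ) * (b / κ)) ∈ Ω' :=
      hc.continuousAt.eventually (hopen.mem_nhds hz'')
    filter_upwards [hn1, hopen.mem_nhds hz] with ζ hζ1 hζ2
    have h := key ζ hζ2 (by rw [hτ ζ]; exact hζ1)
    rw [hτ ζ] at h
    exact h

end P2B
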